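import Mathlib

/-!
# MP_790317_an: a closed-range extension while neither `ran A_0` nor `ran A` is closed
-/

open scoped InnerProductSpace LinearPMap ENNReal

namespace Pool.Agent.Results.MP_790317_an.DiagonalBlocks

section Defs

variable (𝕜 : Type) [RCLike 𝕜] {H₀ H₁ : Type}
  [NormedAddCommGroup H₀] [InnerProductSpace 𝕜 H₀] [CompleteSpace H₀]
  [NormedAddCommGroup H₁] [InnerProductSpace 𝕜 H₁] [CompleteSpace H₁]

/-- The pair `(A_c, B_c)` is as in the problem: both densely defined and `A_c ⊆ -B_c^*`. -/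
def IsPair (Ac : H₀ →ₗ.[𝕜] H₁) (Bc : H₁ →ₗ.[𝕜] H₀) : Prop :=
  Dense (Ac.domain : Set H₀) ∧ Dense (Bc.domain : Set H₁) ∧ Ac ≤ -Bc†

/-- The operator `A = -B_0^*`, where `B_0` is the closure of `B_c`. -/
noncomputable def opMax (Bc : H₁ →ₗ.[𝕜] H₀) : H₀ →ₗ.[𝕜] H₁ := -(Bc.closure)†

/-- The range of an operator. -/
def ran (T : H₀ →ₗ.[𝕜] H₁) : Set H₁ := Set.range fun x : T.domain => T x

/-- `(A_c, B_c)` admits a closed-range extension. -/
def AdmitsClosedRangeExtension (Ac : H₀ →ₗ.[𝕜] H₁) (Bc : H₁ →ₗ.[𝕜] H₀) : Prop :=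
  ∃ (X Y : Type) (_ : NormedAddCommGroup X) (_ : InnerProductSpace 𝕜 X) (_ : CompleteSpace X)
    (_ : NormedAddCommGroup Y) (_ : InnerProductSpace 𝕜 Y) (_ : CompleteSpace Y)
    (T : X →ₗ.[𝕜] Y) (iX : H₀ →ₗᵢ[𝕜] X) (iY : H₁ →ₗᵢ[𝕜] Y),
    Dense (T.domain : Set X) ∧ T.IsClosed ∧ IsClosed (ran 𝕜 T) ∧
    (∀ x : Ac.closure.domain, ∃ h : iX x ∈ T.domain, T ⟨iX x, h⟩ = iY (Ac.closure x)) ∧
    (∀ y : Bc.closure.domain, ∃ h : iY y ∈ (-T†).domain, (-T†) ⟨iY y, h⟩ = iX (Bc.closure y))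

end Defs

section Example

variable (𝕜 : Type) [RCLike 𝕜]

/-- the Hilbert space -/
abbrev HH : Type := lp (fun _ : ℕ × ℕ => 𝕜) 2

variable {𝕜}

lemma ext_HH {x y : HH 𝕜} (h : ∀ i, x i = y i) : x = y := lp.ext (funext h)

/-- the graph of the diagonal operator -/
def gA (𝕜 : Type) [RCLike 𝕜] : Submodule 𝕜 (HH 𝕜 × HH 𝕜) where
  carrier := {p | ∀ i, p.2 i = ((i.2 : ℕ) : 𝕜) * p.1 i}
  add_mem' := by
    intro p q hp hq i
    have h1 := hp i
    have h2 := hq i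
    simp only [Prod.fst_add, Prod.snd_add, lp.coeFn_add, Pi.add_apply, h1, h2]
    ring
  zero_mem' := by intro i; simp
  smul_mem' := by
    intro c p hp i
    have h1 := hp i
    simp only [Prod.smul_fst, Prod.smul_snd, lp.coeFn_smul, Pi.smul_apply, smul_eq_mul, h1]
    ring

lemma summable_aux (n : ℕ) : Summable fun i : ℕ × ℕ =>
    ‖(if i.1 = n ∧ i.2 ≠ 0 then ((i.2 : 𝕜))⁻¹ else 0)‖ ^ (2 : ℝ≥0∞).toReal := by
  have hinj : Function.Injective (fun j : ℕ => (n, j)) := fun a b h => (Prod.mk.inj h).2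
  rw [← hinj.summable_iff]
  · have h1 : Summable fun j : ℕ => 1 / (j : ℝ) ^ 2 :=
      Real.summable_one_div_nat_pow.2 (by norm_num)
    refine Summable.of_nonneg_of_le (fun j => Real.rpow_nonneg (norm_nonneg _) _)
      (fun j => ?_) h1
    simp only [Function.comp, true_and]
    by_cases hj : j = 0
    · subst hj; simp
    · simp [hj]
  · intro i hi
    have : ¬ (i.1 = n ∧ i.2 ≠ 0) := fun h => hi ⟨i.2, by rw [← h.1]⟩
    simp [this]

/-- the vectors `h^(n)` -/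
def hv (𝕜 : Type) [RCLike 𝕜] (n : ℕ) : HH 𝕜 :=
  ⟨fun i => if i.1 = n ∧ i.2 ≠ 0 then ((i.2 : 𝕜))⁻¹ else 0, memℓp_gen (summable_aux n)⟩

lemma hv_apply (n : ℕ) (i : ℕ × ℕ) :
    hv 𝕜 n i = if i.1 = n ∧ i.2 ≠ 0 then ((i.2 : 𝕜))⁻¹ else 0 := rfl

/-- the graph of `A_0` -/
def g0 (𝕜 : Type) [RCLike 𝕜] : Submodule 𝕜 (HH 𝕜 × HH 𝕜) where
  carrier := {p | (∀ i, p.2 i = ((i.2 : ℕ) : 𝕜) * p.1 i) ∧
    ∀ n : ℕ, p.1 (n, 0) = ((n : 𝕜) + 1) * ⟪hv 𝕜 n, p.2⟫_𝕜}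
  add_mem' := by
    intro p q hp hq
    refine ⟨(gA 𝕜).add_mem hp.1 hq.1, fun n => ?_⟩
    simp only [Prod.fst_add, Prod.snd_add, lp.coeFn_add, Pi.add_apply, inner_add_right,
      hp.2 n, hq.2 n]
    ring
  zero_mem' := ⟨(gA 𝕜).zero_mem, fun n => by simp⟩
  smul_mem' := by
    intro c p hp
    refine ⟨(gA 𝕜).smul_mem c hp.1, fun n => ?_⟩
    simp only [Prod.smul_fst, Prod.smul_snd, lp.coeFn_smul, Pi.smul_apply, smul_eq_mul,
      inner_smul_right, hp.2 n]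
    ring

lemma gA_fun : ∀ p ∈ gA 𝕜, p.1 = 0 → p.2 = 0 := by
  intro p hp h
  apply ext_HH
  intro i
  rw [hp i, h]
  simp

lemma g0_le : g0 𝕜 ≤ gA 𝕜 := fun _ hp => hp.1

lemma g0_fun : ∀ p ∈ g0 𝕜, p.1 = 0 → p.2 = 0 := fun p hp h => gA_fun p hp.1 h

/-- the diagonal operator -/
noncomputable def opA (𝕜 : Type) [RCLike 𝕜] : HH 𝕜 →ₗ.[𝕜] HH 𝕜 := (gA 𝕜).toLinearPMap

/-- the operator `A_0` -/
noncomputable def op0 (𝕜 : Type) [RCLike 𝕜] : HH 𝕜 →ₗ.[𝕜] HH 𝕜 := (g0 𝕜).toLinearPMap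

lemma graph_A : (opA 𝕜).graph = gA 𝕜 := Submodule.toLinearPMap_graph_eq _ gA_fun
lemma graph_0 : (op0 𝕜).graph = g0 𝕜 := Submodule.toLinearPMap_graph_eq _ g0_fun

lemma continuous_coord (i : ℕ × ℕ) : Continuous fun x : HH 𝕜 => x i := by
  have : ∀ x : HH 𝕜, x i = ⟪lp.single 2 i (1 : 𝕜), x⟫_𝕜 := by
    intro x
    rw [lp.inner_single_left]
    simp
  simp_rw [this]
  fun_prop

lemma closed_A : (opA 𝕜).IsClosed := by
  unfold LinearPMap.IsClosed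
  rw [graph_A]
  have : ((gA 𝕜 : Submodule 𝕜 (HH 𝕜 × HH 𝕜)) : Set (HH 𝕜 × HH 𝕜)) =
      ⋂ i, {p | p.2 i = ((i.2 : ℕ) : 𝕜) * p.1 i} := by
    ext p; simp [gA]
  rw [this]
  exact isClosed_iInter fun i => isClosed_eq ((continuous_coord i).comp continuous_snd)
    (continuous_const.mul ((continuous_coord i).comp continuous_fst))

lemma closed_g0 : IsClosed ((g0 𝕜 : Submodule 𝕜 (HH 𝕜 × HH 𝕜)) : Set (HH 𝕜 × HH 𝕜)) := by
  have : ((g0 𝕜 : Submodule 𝕜 (HH 𝕜 × HH 𝕜)) : Set (HH 𝕜 × HH 𝕜)) =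
      ((gA 𝕜 : Submodule 𝕜 (HH 𝕜 × HH 𝕜)) : Set (HH 𝕜 × HH 𝕜)) ∩
      ⋂ n : ℕ, {p | p.1 (n, 0) = ((n : 𝕜) + 1) * ⟪hv 𝕜 n, p.2⟫_𝕜} := by
    ext p; simp [g0, gA]
  rw [this]
  refine IsClosed.inter ?_ (isClosed_iInter fun n => isClosed_eq
    ((continuous_coord _).comp continuous_fst) (continuous_const.mul
      (continuous_const.inner continuous_snd)))
  have := closed_A (𝕜 := 𝕜)
  unfold LinearPMap.IsClosed at this
  rwa [graph_A] at this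

lemma closed_0 : (op0 𝕜).IsClosed := by
  unfold LinearPMap.IsClosed
  rw [graph_0]
  exact closed_g0

lemma mem_neg_graph (p : HH 𝕜 × HH 𝕜) : p ∈ (-(op0 𝕜)).graph ↔ (p.1, -p.2) ∈ g0 𝕜 := by
  rw [← graph_0, LinearPMap.mem_graph_iff, LinearPMap.mem_graph_iff]
  constructor
  · rintro ⟨y, h1, h2⟩
    refine ⟨y, h1, ?_⟩
    rw [← h2, LinearPMap.neg_apply, neg_neg]
  · rintro ⟨y, h1, h2⟩
    refine ⟨y, h1, ?_⟩
    rw [LinearPMap.neg_apply, h2, neg_neg]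

lemma closed_neg : (-(op0 𝕜)).IsClosed := by
  unfold LinearPMap.IsClosed
  have : ((-(op0 𝕜)).graph : Set (HH 𝕜 × HH 𝕜)) = (fun p : HH 𝕜 × HH 𝕜 => (p.1, -p.2)) ⁻¹'
      ((g0 𝕜 : Submodule 𝕜 (HH 𝕜 × HH 𝕜)) : Set (HH 𝕜 × HH 𝕜)) := by
    ext p
    exact mem_neg_graph p
  rw [this]
  exact closed_g0.preimage (by fun_prop)

lemma closure_eq {T : HH 𝕜 →ₗ.[𝕜] HH 𝕜} (h : T.IsClosed) : T.closure = T := by
  apply LinearPMap.eq_of_eq_graph
  rw [← h.isClosable.graph_closure_eq_closure_graph]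
  exact IsClosed.submodule_topologicalClosure_eq h

/-- the diagonal operator is symmetric -/
lemma symm_A {p q : HH 𝕜 × HH 𝕜} (hp : p ∈ gA 𝕜) (hq : q ∈ gA 𝕜) :
    ⟪p.2, q.1⟫_𝕜 = ⟪p.1, q.2⟫_𝕜 := by
  rw [lp.inner_eq_tsum, lp.inner_eq_tsum]
  refine tsum_congr fun i => ?_
  rw [hp i, hq i]
  simp only [RCLike.inner_apply, map_mul, map_natCast]
  ring

/-- the unit vectors -/
noncomputable def e (𝕜 : Type) [RCLike 𝕜] (i : ℕ × ℕ) : HH 𝕜 := lp.single 2 i (1 : 𝕜)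

lemma e_apply (i j : ℕ × ℕ) : e 𝕜 i j = if j = i then 1 else 0 := by
  unfold e
  rw [lp.single_apply]
  by_cases h : j = i
  · subst h; simp
  · simp [h]

lemma inner_e (i : ℕ × ℕ) (x : HH 𝕜) : ⟪e 𝕜 i, x⟫_𝕜 = x i := by
  unfold e; rw [lp.inner_single_left]; simp

/-- the test vectors -/
lemma test_mem (n j : ℕ) (hj : j ≠ 0) :
    (e 𝕜 (n, j) + ((n : 𝕜) + 1) • e 𝕜 (n, 0), (j : 𝕜) • e 𝕜 (n, j)) ∈ g0 𝕜 := by
  constructor
  · rintro ⟨a, b⟩
    simp only [lp.coeFn_add, lp.coeFn_smul, Pi.add_apply, Pi.smul_apply, smul_eq_mul, e_apply,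
      Prod.mk.injEq]
    by_cases h1 : a = n ∧ b = j
    · obtain ⟨rfl, rfl⟩ := h1
      simp [hj]
    · by_cases h2 : a = n ∧ b = 0
      · obtain ⟨rfl, rfl⟩ := h2
        simp [hj.symm]
      · simp [h1, h2]
  · intro m
    simp only [lp.coeFn_add, lp.coeFn_smul, Pi.add_apply, Pi.smul_apply, smul_eq_mul, e_apply,
      Prod.mk.injEq, inner_smul_right]
    have : ⟪hv 𝕜 m, e 𝕜 (n, j)⟫_𝕜 = if m = n then ((j : 𝕜))⁻¹ else 0 := by
      rw [← inner_conj_symm, inner_e, hv_apply]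
      by_cases h : m = n
      · simp [h, hj]
      · simp [h, Ne.symm h]
    rw [this]
    have hj' : (j : 𝕜) ≠ 0 := by exact_mod_cast hj
    by_cases h : m = n
    · subst h
      simp [hj.symm, hj']
    · simp [h]

lemma tendsto_zero_of_row (x : HH 𝕜) (φ : ℕ → ℕ × ℕ) (hφ : Function.Injective φ) :
    Filter.Tendsto (fun j => x (φ j)) Filter.atTop (nhds 0) := by
  have h1 : Summable fun i => ‖x i‖ ^ (2 : ℝ≥0∞).toReal := (lp.memℓp x).summable (by norm_num)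
  have h2 := (h1.comp_injective hφ).tendsto_atTop_zero
  have h3 : Filter.Tendsto (fun j => ‖x (φ j)‖ ^ 2) Filter.atTop (nhds 0) := by
    refine h2.congr fun j => ?_
    simp
  have h4 := (Real.continuous_sqrt.tendsto 0).comp h3
  rw [Real.sqrt_zero] at h4
  rw [tendsto_zero_iff_norm_tendsto_zero]
  refine h4.congr fun j => ?_
  simp [Real.sqrt_sq]

lemma dense_0 : Dense ((op0 𝕜).domain : Set (HH 𝕜)) := by
  rw [Submodule.dense_iff_topologicalClosure_eq_top, Submodule.topologicalClosure_eq_top_iff,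
    Submodule.eq_bot_iff]
  intro y hy
  rw [Submodule.mem_orthogonal] at hy
  have h1 : ∀ n j, j ≠ 0 → y (n, j) + ((n : 𝕜) + 1) * y (n, 0) = 0 := by
    intro n j hj
    have h2 : e 𝕜 (n, j) + ((n : 𝕜) + 1) • e 𝕜 (n, 0) ∈ (op0 𝕜).domain :=
      ⟨_, test_mem n j hj, rfl⟩
    have h3 := hy _ h2
    rw [inner_add_left, inner_smul_left, inner_e, inner_e] at h3
    simpa using h3
  have h2 : ∀ n, y (n, 0) = 0 := by
    intro n
    have h3 := tendsto_zero_of_row y (fun j => (n, j + 1))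
      (fun a b h => by simpa using (Prod.mk.inj h).2)
    have h4 : ∀ j, y (n, j + 1) = -(((n : 𝕜) + 1) * y (n, 0)) := fun j =>
      eq_neg_of_add_eq_zero_left (h1 n (j + 1) (by omega))
    simp only [h4] at h3
    have h5 := tendsto_nhds_unique tendsto_const_nhds h3
    rw [neg_eq_zero, mul_eq_zero] at h5
    rcases h5 with h5 | h5
    · exfalso
      have : ((n + 1 : ℕ) : 𝕜) ≠ 0 := by exact_mod_cast Nat.succ_ne_zero n
      apply this
      push_cast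
      exact h5
    · exact h5
  apply ext_HH
  rintro ⟨n, j⟩
  by_cases hj : j = 0
  · rw [hj]; exact h2 n
  · have := h1 n j hj
    rw [h2, mul_zero, add_zero] at this
    exact this

lemma mem_ran {T : HH 𝕜 →ₗ.[𝕜] HH 𝕜} (z : HH 𝕜) : z ∈ ran 𝕜 T ↔ ∃ x, (x, z) ∈ T.graph := by
  constructor
  · rintro ⟨x, rfl⟩
    exact ⟨x, T.mem_graph x⟩
  · rintro ⟨x, hx⟩
    obtain ⟨y, -, h2⟩ := (LinearPMap.mem_graph_iff T).1 hx
    exact ⟨y, h2⟩

lemma ran_eq {T : HH 𝕜 →ₗ.[𝕜] HH 𝕜} :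
    ran 𝕜 T = (T.graph.map (LinearMap.snd 𝕜 (HH 𝕜) (HH 𝕜)) : Set (HH 𝕜)) := by
  ext z
  rw [mem_ran]
  constructor
  · rintro ⟨x, hx⟩; exact ⟨_, hx, rfl⟩
  · rintro ⟨⟨x, z'⟩, hx, rfl⟩; exact ⟨x, hx⟩

lemma mem_closed_ran {T : HH 𝕜 →ₗ.[𝕜] HH 𝕜} (hT : IsClosed (ran 𝕜 T)) {w : HH 𝕜}
    (hw : ∀ y : HH 𝕜, (∀ z ∈ ran 𝕜 T, ⟪z, y⟫_𝕜 = 0) → ⟪y, w⟫_𝕜 = 0) : w ∈ ran 𝕜 T := by
  rw [ran_eq] at hT hw ⊢
  have h1 := hT.submodule_topologicalClosure_eq
  rw [← Submodule.orthogonal_orthogonal_eq_closure] at h1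
  rw [SetLike.mem_coe, ← h1, Submodule.mem_orthogonal]
  intro y hy
  exact hw y fun z hz => (Submodule.mem_orthogonal _ _).1 hy z hz

lemma mem_graph_neg_adj {T : HH 𝕜 →ₗ.[𝕜] HH 𝕜} (hT : Dense (T.domain : Set (HH 𝕜)))
    (p : HH 𝕜 × HH 𝕜) : p ∈ (-T†).graph ↔ ∀ q ∈ T.graph, ⟪q.2, p.1⟫_𝕜 = -⟪q.1, p.2⟫_𝕜 := by
  have h1 : p ∈ (-T†).graph ↔ (p.1, -p.2) ∈ (T†).graph := by
    rw [LinearPMap.mem_graph_iff, LinearPMap.mem_graph_iff]
    constructor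
    · rintro ⟨y, h1, h2⟩
      refine ⟨y, h1, ?_⟩
      rw [← h2, LinearPMap.neg_apply, neg_neg]
    · rintro ⟨y, h1, h2⟩
      refine ⟨y, h1, ?_⟩
      rw [LinearPMap.neg_apply, h2, neg_neg]
  rw [h1, LinearPMap.adjoint_graph_eq_graph_adjoint hT, Submodule.mem_adjoint_iff]
  constructor
  · rintro h ⟨a, b⟩ hq
    have := h a b hq
    simp only [inner_neg_right, sub_neg_eq_add] at this
    exact eq_neg_of_add_eq_zero_left this
  · intro h a b hq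
    have := h (a, b) hq
    simp only [inner_neg_right, sub_neg_eq_add]
    simp only at this
    rw [this]; ring

lemma dense_neg : Dense ((-(op0 𝕜)).domain : Set (HH 𝕜)) := dense_0

lemma opMax_eq : opMax 𝕜 (-(op0 𝕜)) = -(-(op0 𝕜))† := by
  unfold opMax
  rw [closure_eq closed_neg]

lemma mem_opMax (p : HH 𝕜 × HH 𝕜) : p ∈ (-(-(op0 𝕜))†).graph ↔
    ∀ q ∈ g0 𝕜, ⟪q.2, p.1⟫_𝕜 = ⟪q.1, p.2⟫_𝕜 := by
  rw [mem_graph_neg_adj dense_neg]
  constructor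
  · rintro h ⟨a, b⟩ hq
    have := h (a, -b) ((mem_neg_graph _).2 (by simpa using hq))
    simpa using this
  · rintro h ⟨a, b⟩ hq
    have := h (a, -b) ((mem_neg_graph _).1 hq)
    simp only [inner_neg_left] at this ⊢
    rw [← this, neg_neg]

lemma isPair : IsPair 𝕜 (op0 𝕜) (-(op0 𝕜)) := by
  refine ⟨dense_0, dense_neg, ?_⟩
  rw [← LinearPMap.le_graph_iff, graph_0]
  intro p hp
  rw [mem_opMax]
  intro q hq
  exact symm_A hq.1 hp.1

/-- vectors supported on one column -/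
noncomputable def cv (𝕜 : Type) [RCLike 𝕜] (k : ℕ) : HH 𝕜 :=
  ⟨fun i => if i.2 = k then ((i.1 : 𝕜) + 1)⁻¹ else 0, memℓp_gen (by
    have hinj : Function.Injective (fun n : ℕ => (n, k)) := fun a b h => (Prod.mk.inj h).1
    rw [← hinj.summable_iff]
    · have h1 : Summable fun n : ℕ => 1 / ((n + 1 : ℕ) : ℝ) ^ 2 :=
        (summable_nat_add_iff (f := fun n : ℕ => 1 / (n : ℝ) ^ 2) 1).2
          (Real.summable_one_div_nat_pow.2 (by norm_num))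
      refine h1.congr fun n => ?_
      have h2 : ‖((n : 𝕜) + 1)‖ = (n : ℝ) + 1 := by
        have : ((n : 𝕜) + 1) = ((n + 1 : ℕ) : 𝕜) := by push_cast; ring
        rw [this, RCLike.norm_natCast]; push_cast; ring
      simp [h2]
    · intro i hi
      have : i.2 ≠ k := fun h => hi ⟨i.1, by rw [← h]⟩
      simp [this])⟩

lemma cv_apply (k : ℕ) (i : ℕ × ℕ) : cv 𝕜 k i = if i.2 = k then ((i.1 : 𝕜) + 1)⁻¹ else 0 := rfl

lemma succ_ne (n : ℕ) : ((n : 𝕜) + 1) ≠ 0 := by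
  have : ((n + 1 : ℕ) : 𝕜) ≠ 0 := by exact_mod_cast Nat.succ_ne_zero n
  push_cast at this
  exact this

lemma inner_cv {y : HH 𝕜} {k : ℕ} (h : ∀ n, y (n, k) = 0) : ⟪y, cv 𝕜 k⟫_𝕜 = 0 := by
  rw [lp.inner_eq_tsum]
  have : ∀ i, ⟪y i, cv 𝕜 k i⟫_𝕜 = 0 := by
    rintro ⟨n, j⟩
    rw [cv_apply]
    by_cases hj : j = k
    · subst hj; rw [h n]; simp
    · simp [hj]
  rw [tsum_congr this, tsum_zero]

lemma not_closed_0 : ¬ IsClosed (ran 𝕜 (op0 𝕜)) := by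
  intro hcl
  have h1 : cv 𝕜 1 ∈ ran 𝕜 (op0 𝕜) := by
    apply mem_closed_ran hcl
    intro y hy
    apply inner_cv
    intro n
    have h2 : ((1 : ℕ) : 𝕜) • e 𝕜 (n, 1) ∈ ran 𝕜 (op0 𝕜) := by
      rw [mem_ran, graph_0]
      exact ⟨_, test_mem n 1 one_ne_zero⟩
    have h3 := hy _ h2
    rw [Nat.cast_one, one_smul, inner_e] at h3
    exact h3
  rw [mem_ran, graph_0] at h1
  obtain ⟨x, -, hx⟩ := h1
  have h2 : ∀ n, x (n, 0) = 1 := by
    intro n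
    have h3 := hx n
    simp only at h3
    have h4 : ⟪hv 𝕜 n, cv 𝕜 1⟫_𝕜 = ((n : 𝕜) + 1)⁻¹ := by
      rw [lp.inner_eq_tsum, tsum_eq_single (n, 1)]
      · rw [hv_apply, cv_apply]; simp
      · rintro ⟨a, b⟩ hab
        rw [hv_apply, cv_apply]
        by_cases h5 : b = 1
        · have h6 : a ≠ n := fun h => hab (by rw [h, h5])
          simp [h6]
        · simp [h5]
    rw [h3, h4, mul_inv_cancel₀ (succ_ne n)]
  have h3 := tendsto_zero_of_row x (fun n => (n, 0)) (fun a b h => (Prod.mk.inj h).1)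
  simp only [h2] at h3
  exact one_ne_zero (tendsto_nhds_unique tendsto_const_nhds h3)

lemma not_closed_max : ¬ IsClosed (ran 𝕜 (opMax 𝕜 (-(op0 𝕜)))) := by
  rw [opMax_eq]
  intro hcl
  have h1 : cv 𝕜 0 ∈ ran 𝕜 (-(-(op0 𝕜))†) := by
    apply mem_closed_ran hcl
    intro y hy
    apply inner_cv
    intro n
    have h2 : e 𝕜 (n, 0) ∈ ran 𝕜 (-(-(op0 𝕜))†) := by
      rw [mem_ran]
      refine ⟨((n : 𝕜) + 1) • hv 𝕜 n, ?_⟩
      rw [mem_opMax]
      intro q hq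
      simp only
      rw [inner_smul_right, ← inner_conj_symm q.1, inner_e, hq.2 n, map_mul, inner_conj_symm]
      simp
    have h3 := hy _ h2
    rw [inner_e] at h3
    exact h3
  rw [mem_ran] at h1
  obtain ⟨y, hy⟩ := h1
  rw [mem_opMax] at hy
  have h2 : ∀ n, y (n, 1) = 1 := by
    intro n
    have h3 := hy _ (test_mem n 1 one_ne_zero)
    simp only [Nat.cast_one, one_smul, inner_e, inner_add_left, inner_smul_left, cv_apply] at h3
    rw [h3]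
    simp [succ_ne n]
  have h3 := tendsto_zero_of_row y (fun n => (n, 1)) (fun a b h => (Prod.mk.inj h).1)
  simp only [h2] at h3
  exact one_ne_zero (tendsto_nhds_unique tendsto_const_nhds h3)

lemma ran_A : ran 𝕜 (opA 𝕜) = ⋂ n : ℕ, {z | z (n, 0) = 0} := by
  ext z
  rw [mem_ran, graph_A]
  simp only [Set.mem_iInter, Set.mem_ofPred_eq]
  constructor
  · rintro ⟨x, hx⟩ n
    have := hx (n, 0)
    simpa using this
  · intro h
    refine ⟨⟨fun i => ((i.2 : 𝕜))⁻¹ * z i, memℓp_gen ?_⟩, ?_⟩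
    · have h1 : Summable fun i => ‖z i‖ ^ (2 : ℝ≥0∞).toReal := (lp.memℓp z).summable (by norm_num)
      refine Summable.of_nonneg_of_le (fun i => Real.rpow_nonneg (norm_nonneg _) _) (fun i => ?_) h1
      apply Real.rpow_le_rpow (norm_nonneg _) _ (by norm_num)
      rw [norm_mul, norm_inv, RCLike.norm_natCast]
      by_cases hi : i.2 = 0
      · rw [hi]; simp
      · have : (1 : ℝ) ≤ i.2 := by exact_mod_cast Nat.one_le_iff_ne_zero.2 hi
        have h2 : ((i.2 : ℝ))⁻¹ ≤ 1 := inv_le_one_of_one_le₀ this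
        nlinarith [norm_nonneg (z i)]
    · rintro ⟨n, j⟩
      show z (n, j) = (j : 𝕜) * ((j : 𝕜)⁻¹ * z (n, j))
      by_cases hj : j = 0
      · subst hj; rw [h n]; simp
      · have : (j : 𝕜) ≠ 0 := by exact_mod_cast hj
        rw [← mul_assoc, mul_inv_cancel₀ this, one_mul]

lemma dense_A : Dense ((opA 𝕜).domain : Set (HH 𝕜)) := by
  refine dense_0.mono ?_
  rintro x ⟨p, hp, rfl⟩
  exact ⟨p, hp.1, rfl⟩

lemma admits : AdmitsClosedRangeExtension 𝕜 (op0 𝕜) (-(op0 𝕜)) := by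
  refine ⟨HH 𝕜, HH 𝕜, inferInstance, inferInstance, inferInstance, inferInstance, inferInstance,
    inferInstance, opA 𝕜, LinearIsometry.id, LinearIsometry.id, dense_A, closed_A, ?_, ?_, ?_⟩
  · rw [ran_A]
    exact isClosed_iInter fun n => isClosed_eq (continuous_coord _) continuous_const
  · rw [closure_eq closed_0]
    intro x
    have h1 : ((x : HH 𝕜), op0 𝕜 x) ∈ (opA 𝕜).graph := by
      rw [graph_A]
      apply g0_le
      rw [← graph_0]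
      exact (op0 𝕜).mem_graph x
    obtain ⟨y, h2, h3⟩ := (LinearPMap.mem_graph_iff _).1 h1
    simp only at h2 h3
    have h4 : (x : HH 𝕜) ∈ (opA 𝕜).domain := h2 ▸ y.2
    refine ⟨h4, ?_⟩
    simp only [LinearIsometry.id_apply]
    rw [← h3]
    congr 1
    exact Subtype.ext h2.symm
  · rw [closure_eq closed_neg]
    intro y
    have h1 : ((y : HH 𝕜), (-(op0 𝕜)) y) ∈ (-(opA 𝕜)†).graph := by
      rw [mem_graph_neg_adj dense_A, graph_A]
      intro q hq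
      have h2 := (mem_neg_graph _).1 ((-(op0 𝕜)).mem_graph y)
      have h3 := symm_A hq h2.1
      simp only [inner_neg_right] at h3 ⊢
      exact h3
    obtain ⟨z, h2, h3⟩ := (LinearPMap.mem_graph_iff _).1 h1
    simp only at h2 h3
    have h4 : (y : HH 𝕜) ∈ (-(opA 𝕜)†).domain := h2 ▸ z.2
    refine ⟨h4, ?_⟩
    simp only [LinearIsometry.id_apply]
    rw [← h3]
    congr 1
    exact Subtype.ext h2.symm

end Example

/-- **The answer is positive**: over `𝕜 = ℝ` and over `𝕜 = ℂ` there is a pair `(A_c, B_c)` which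
admits a closed-range extension and for which neither `ran(A_0)` nor `ran(A)` is closed. -/
theorem result (𝕜 : Type) [RCLike 𝕜] : ∃ (H₀ H₁ : Type) (_ : NormedAddCommGroup H₀)
    (_ : InnerProductSpace 𝕜 H₀) (_ : CompleteSpace H₀) (_ : NormedAddCommGroup H₁)
    (_ : InnerProductSpace 𝕜 H₁) (_ : CompleteSpace H₁)
    (Ac : H₀ →ₗ.[𝕜] H₁) (Bc : H₁ →ₗ.[𝕜] H₀),
    IsPair 𝕜 Ac Bc ∧ AdmitsClosedRangeExtension 𝕜 Ac Bc ∧
    ¬ IsClosed (ran 𝕜 Ac.closure) ∧ ¬ IsClosed (ran 𝕜 (opMax 𝕜 Bc)) := by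
  refine ⟨HH 𝕜, HH 𝕜, inferInstance, inferInstance, inferInstance, inferInstance, inferInstance,
    inferInstance, op0 𝕜, -(op0 𝕜), isPair, admits, ?_, not_closed_max⟩
  rw [closure_eq closed_0]
  exact not_closed_0

end Pool.Agent.Results.MP_790317_an.DiagonalBlocks
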